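import Pool.Agent.Helper16.TY.Tab.T0
import Pool.Agent.Helper16.TY.Tab.T1
import Pool.Agent.Helper16.TY.Tab.T2
import Pool.Agent.Helper16.TY.Tab.T3
import Pool.Agent.Helper16.TY.Tab.T4
import Pool.Agent.Helper16.TY.Tab.T5
import Pool.Agent.Helper16.TY.Tab.T6
import Pool.Agent.Helper16.TY.Tab.T7
import Pool.Agent.Helper16.TY.Tab.T8
import Pool.Agent.Helper16.TY.Tab.T9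

/-! MP_8ee768_co, project TH-Y': the class table (generated tree). `tv j` = code of the class
representative `j` and of its zero points, `rp j` the code of the representative, `nc` classes. -/

set_option autoImplicit false
set_option maxRecDepth 100000

namespace Pool.Agent.Helper16.TY.Tab

/-- the tree of the groups -/
def tree : Tr :=
  .nd (.nd (.nd (.nd (.nd (.nd (.nd (.lf g0) (.lf g64)) (.nd (.lf g32) (.lf g96))) (.nd (.nd (.lf g16) (.lf g80)) (.nd (.lf g48) (.lf g0)))) (.nd (.nd (.nd (.lf g8) (.lf g72)) (.nd (.lf g40) (.lf g0))) (.nd (.nd (.lf g24) (.lf g88)) (.nd (.lf g56) (.lf g0))))) (.nd (.nd (.nd (.nd (.lf g4) (.lf g68)) (.nd (.lf g36) (.lf g0))) (.nd (.nd (.lf g20) (.lf g84)) (.nd (.lf g52)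 (.lf g0)))) (.nd (.nd (.nd (.lf g12) (.lf g76)) (.nd (.lf g44) (.lf g0))) (.nd (.nd (.lf g28) (.lf g92)) (.nd (.lf g60) (.lf g0)))))) (.nd (.nd (.nd (.nd (.nd (.lf g2) (.lf g66)) (.nd (.lf g34) (.lf g98))) (.nd (.nd (.lf g18) (.lf g82)) (.nd (.lf g50) (.lf g0)))) (.nd (.nd (.nd (.lf g10) (.lf g74)) (.nd (.lf g42) (.lf g0))) (.nd (.nd (.lf g26) (.lf g90)) (.nd (.lf g58) (.lf g0))))) (.nd (.nd (.nd (.nd (.lf g6) (.lf g70)) (.nd (.lf g38) (.lf g0))) (.nd (.nd (.lf g22) (.lf g86)) (.nd (.lf g54) (.lf g0)))) (.nd (.nd (.nd (.lf g14) (.lf g78)) (.nd (.lf g46) (.lf g0))) (.nd (.nd (.lf g30) (.lf g94)) (.nd (.lf g62) (.lf g0))))))) (.nd (.nd (.nd (.nd (.nd (.nd (.lf g1) (.lf g65)) (.nd (.lf g33) (.lf g97))) (.nd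 (.nd (.lf g17) (.lf g81)) (.nd (.lf g49) (.lf g0)))) (.nd (.nd (.nd (.lf g9) (.lf g73)) (.nd (.lf g41) (.lf g0))) (.nd (.nd (.lf g25) (.lf g89)) (.nd (.lf g57) (.lf g0))))) (.nd (.nd (.nd (.nd (.lf g5) (.lf g69)) (.nd (.lf g37) (.lf g0))) (.nd (.nd (.lf g21) (.lf g85)) (.nd (.lf g53) (.lf g0)))) (.nd (.nd (.nd (.lf g13) (.lf g77)) (.nd (.lf g45) (.lf g0))) (.nd (.nd (.lf g29) (.lf g93)) (.nd (.lf g61) (.lf g0)))))) (.nd (.nd (.nd (.nd (.nd (.lf g3) (.lf g67)) (.nd (.lf g35) (.lf g99))) (.nd (.nd (.lf g19) (.lf g83)) (.nd (.lf g51) (.lf g0)))) (.nd (.nd (.nd (.lf g11) (.lf g75)) (.nd (.lf g43) (.lf g0))) (.nd (.nd (.lf g27) (.lf g91)) (.nd (.lf g59) (.lf g0))))) (.nd (.nd (.nd (.nd (.lf g7) (.lf g71)) (.nd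 (.lf g39) (.lf g0))) (.nd (.nd (.lf g23) (.lf g87)) (.nd (.lf g55) (.lf g0)))) (.nd (.nd (.nd (.lf g15) (.lf g79)) (.nd (.lf g47) (.lf g0))) (.nd (.nd (.lf g31) (.lf g95)) (.nd (.lf g63) (.lf g0)))))))

theorem tree_good : tree.All (GoodG 6) :=
  ⟨⟨⟨⟨⟨⟨⟨ok0, ok64⟩, ⟨ok32, ok96⟩⟩, ⟨⟨ok16, ok80⟩, ⟨ok48, ok0⟩⟩⟩, ⟨⟨⟨ok8, ok72⟩, ⟨ok40, ok0⟩⟩, ⟨⟨ok24, ok88⟩, ⟨ok56, ok0⟩⟩⟩⟩, ⟨⟨⟨⟨ok4, ok68⟩, ⟨ok36, ok0⟩⟩, ⟨⟨ok20, ok84⟩, ⟨ok52, ok0⟩⟩⟩, ⟨⟨⟨ok12, ok76⟩, ⟨ok44, ok0⟩⟩, ⟨⟨ok28, ok92⟩, ⟨ok60, ok0⟩⟩⟩⟩⟩, ⟨⟨⟨⟨⟨ok2, ok66⟩, ⟨ok34, ok98⟩⟩, ⟨⟨ok18, ok82⟩, ⟨ok50, ok0⟩⟩⟩, ⟨⟨⟨ok10, ok74⟩, ⟨ok42, ok0⟩⟩, ⟨⟨ok26, ok90⟩, ⟨ok58, ok0⟩⟩⟩⟩, ⟨⟨⟨⟨ok6, ok70⟩, ⟨ok38, ok0⟩⟩, ⟨⟨ok22, ok86⟩, ⟨ok54, ok0⟩⟩⟩, ⟨⟨⟨ok14, ok78⟩, ⟨ok46, ok0⟩⟩, ⟨⟨ok30,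 ok94⟩, ⟨ok62, ok0⟩⟩⟩⟩⟩⟩, ⟨⟨⟨⟨⟨⟨ok1, ok65⟩, ⟨ok33, ok97⟩⟩, ⟨⟨ok17, ok81⟩, ⟨ok49, ok0⟩⟩⟩, ⟨⟨⟨ok9, ok73⟩, ⟨ok41, ok0⟩⟩, ⟨⟨ok25, ok89⟩, ⟨ok57, ok0⟩⟩⟩⟩, ⟨⟨⟨⟨ok5, ok69⟩, ⟨ok37, ok0⟩⟩, ⟨⟨ok21, ok85⟩, ⟨ok53, ok0⟩⟩⟩, ⟨⟨⟨ok13, ok77⟩, ⟨ok45, ok0⟩⟩, ⟨⟨ok29, ok93⟩, ⟨ok61, ok0⟩⟩⟩⟩⟩, ⟨⟨⟨⟨⟨ok3, ok67⟩, ⟨ok35, ok99⟩⟩, ⟨⟨ok19, ok83⟩, ⟨ok51, ok0⟩⟩⟩, ⟨⟨⟨ok11, ok75⟩, ⟨ok43, ok0⟩⟩, ⟨⟨ok27, ok91⟩, ⟨ok59, ok0⟩⟩⟩⟩, ⟨⟨⟨⟨ok7, ok71⟩, ⟨ok39, ok0⟩⟩, ⟨⟨ok23, ok87⟩, ⟨ok55, ok0⟩⟩⟩, ⟨⟨⟨ok15, ok79⟩, ⟨ok47, ok0⟩⟩, ⟨⟨ok31, ok95⟩, ⟨ok63, ok0⟩⟩⟩⟩⟩⟩⟩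

/-- number of classes -/
def nc : ℕ := 24746

/-- table value -/
noncomputable def tv (j : ℕ) : ℕ := val tree j

/-- class representative -/
noncomputable def rp (j : ℕ) : ℕ := tv j % 2 ^ 495

theorem tv_good (j : ℕ) : Good 6 (tv j) := good_val tree_good j

end Pool.Agent.Helper16.TY.Tab
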